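import Pool.Agent.P.MP_62e163_co.Clean
import Pool.Agent.P.MP_62e163_co.T3
import Pool.Agent.P.MP_62e163_co.T4
import Pool.Agent.P.MP_62e163_co.T5
import Pool.Agent.P.MP_62e163_co.T6
import Pool.Agent.P.MP_62e163_co.T7
import Pool.Agent.P.MP_62e163_co.T8
import Pool.Agent.P.MP_62e163_co.T9
import Pool.Agent.P.MP_62e163_co.T10

namespace Pool.Agent.Results.MP_62e163_co.UpperAllH

open Real Pool.Agent.P.MP_62e163_co

/-- The explicit constant: a table for `3 ≤ m ≤ 10`, a closed form otherwise. -/
noncomputable def mu (m : ℕ) : ℝ :=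
  if m = 3 then 4264 / 10000 else if m = 4 then 3504 / 10000 else if m = 5 then 3026 / 10000
  else if m = 6 then 2697 / 10000 else if m = 7 then 2452 / 10000 else if m = 8 then 2261 / 10000
  else if m = 9 then 2108 / 10000 else if m = 10 then 1981 / 10000
  else ((2 * m).choose m : ℝ) / 4 ^ m * (1 + 2 / (12 * m + 13) *
    (2 * m - (2 * m - 1) * (6 / ((12 * m + 13) * π ^ 2) : ℝ) ^ ((2 * m - 1 : ℝ)⁻¹)))

lemma small (m : ℕ) (h0 : 0 < m) (h1 : m ≤ 10) (μ : ℝ) (hμ : 0 < μ)
    (h : (1 + 1 / (2 * (m : ℝ))) ^ 2 ≤ μ ^ 2 * (3.14 * m)) :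
    (1 + log m / (6 * m)) / √(π * m) ≤ μ := by
  have hm : (0 : ℝ) < m := by exact_mod_cast h0
  have hm1 : (m : ℝ) ≤ 10 := by exact_mod_cast h1
  have hπ := pi_gt_d2
  have hl : log m ≤ 3 := by
    have := Real.log_le_log hm (show (m : ℝ) ≤ 2 ^ 4 by linarith)
    rw [Real.log_pow] at this
    have := Real.log_two_lt_d9
    push_cast at *
    linarith
  have h2 : log m / (6 * m) ≤ 1 / (2 * m) := by
    rw [div_le_div_iff₀ (by positivity) (by positivity)]
    nlinarith
  rw [div_le_iff₀ (by positivity), ← div_le_iff₀' hμ]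
  refine le_trans (div_le_div_of_nonneg_right (add_le_add le_rfl h2) hμ.le) ?_
  refine Real.le_sqrt_of_sq_le ?_
  rw [div_pow, div_le_iff₀ (by positivity)]
  refine h.trans ?_
  rw [mul_comm]
  gcongr

theorem result (m : ℕ) (hm : 3 ≤ m) :
    (1 + log m / (6 * m)) / √(π * m) ≤ mu m ∧
      Bound (2 * m) ((m.factorial : ℝ) ^ 2 / mu m) ∧
      Bound (2 * m - 1) ((m.factorial : ℝ) * (m - 1).factorial / mu m) := by
  rcases le_or_gt m 10 with h | h
  · interval_cases m
    · have e : mu 3 = 4264 / 10000 := by simp [mu]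
      rw [e]; exact ⟨small 3 (by norm_num) h _ (by norm_num) (by norm_num), both3⟩
    · have e : mu 4 = 3504 / 10000 := by simp [mu]
      rw [e]; exact ⟨small 4 (by norm_num) h _ (by norm_num) (by norm_num), both4⟩
    · have e : mu 5 = 3026 / 10000 := by simp [mu]
      rw [e]; exact ⟨small 5 (by norm_num) h _ (by norm_num) (by norm_num), both5⟩
    · have e : mu 6 = 2697 / 10000 := by simp [mu]
      rw [e]; exact ⟨small 6 (by norm_num) h _ (by norm_num) (by norm_num), both6⟩
    · have e : mu 7 = 2452 / 10000 := by simp [mu]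
      rw [e]; exact ⟨small 7 (by norm_num) h _ (by norm_num) (by norm_num), both7⟩
    · have e : mu 8 = 2261 / 10000 := by simp [mu]
      rw [e]; exact ⟨small 8 (by norm_num) h _ (by norm_num) (by norm_num), both8⟩
    · have e : mu 9 = 2108 / 10000 := by simp [mu]
      rw [e]; exact ⟨small 9 (by norm_num) h _ (by norm_num) (by norm_num), both9⟩
    · have e : mu 10 = 1981 / 10000 := by simp [mu]
      rw [e]; exact ⟨small 10 (by norm_num) h _ (by norm_num) (by norm_num), both10⟩
  · have e : mu m = muGen m := by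
      unfold mu muGen
      rw [if_neg (by omega), if_neg (by omega), if_neg (by omega), if_neg (by omega),
        if_neg (by omega), if_neg (by omega), if_neg (by omega), if_neg (by omega),
        Nat.centralBinom_eq_two_mul_choose]
    rw [e]
    refine ⟨clean m h, ?_⟩
    obtain ⟨q, rfl⟩ : ∃ q, m = q + 1 := ⟨m - 1, by omega⟩
    exact both_gen q

end Pool.Agent.Results.MP_62e163_co.UpperAllH
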